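import Pool.Agent.Y208.BH.Stm
import Pool.Agent.Helper18.Br.TensorCSA

/-!
# Project BH: task BIM (bimodules over central simple algebras)
-/

set_option autoImplicit false

open scoped TensorProduct

namespace Pool.Agent.Y151.BH.Bim

open MulOpposite Y208.BH

variable {A : Type} [Ring A] [Algebra (ZMod 2) A]

/-- The bimodule structure of `A`. -/
noncomputable abbrev md (A : Type) [Ring A] [Algebra (ZMod 2) A] :
    Module (A ⊗[ZMod 2] Aᵐᵒᵖ) A := TensorProduct.Algebra.module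

attribute [local instance] md

theorem sm (a : A) (b : Aᵐᵒᵖ) (v : A) :
    ((a ⊗ₜ[ZMod 2] b : A ⊗[ZMod 2] Aᵐᵒᵖ) • v) = a * (v * unop b) := by
  rw [TensorProduct.Algebra.smul_def]
  rfl

theorem sm1 (a : A) (v : A) :
    ((a ⊗ₜ[ZMod 2] (1 : Aᵐᵒᵖ) : A ⊗[ZMod 2] Aᵐᵒᵖ) • v) = a * v := by
  rw [sm]; simp

theorem sm2 (a : A) (v : A) :
    (((1 : A) ⊗ₜ[ZMod 2] (op a) : A ⊗[ZMod 2] Aᵐᵒᵖ) • v) = v * a := by
  rw [sm]; simp

theorem char2 (R : Type) [Ring R] [Algebra (ZMod 2) R] : (2 : R) = 0 := by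
  have h : (2 : R) = algebraMap (ZMod 2) R 2 := (map_ofNat (algebraMap (ZMod 2) R) 2).symm
  rw [h, show (2 : ZMod 2) = 0 from rfl, map_zero]

theorem tr1 (hA : IsSimpleRing A) (v u : A) (hv : v ≠ 0) :
    ∃ r : A ⊗[ZMod 2] Aᵐᵒᵖ, r • v = u := by
  let J : TwoSidedIdeal A := TwoSidedIdeal.mk' {w | ∃ r : A ⊗[ZMod 2] Aᵐᵒᵖ, r • v = w}
    ⟨0, zero_smul (A ⊗[ZMod 2] Aᵐᵒᵖ) v⟩
    (by rintro x y ⟨r, rfl⟩ ⟨s, rfl⟩; exact ⟨r + s, add_smul _ _ _⟩)
    (by rintro x ⟨r, rfl⟩; exact ⟨-r, neg_smul _ _⟩)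
    (by
      rintro x y ⟨r, rfl⟩
      exact ⟨(x ⊗ₜ[ZMod 2] (1 : Aᵐᵒᵖ)) * r, by rw [mul_smul, sm1]⟩)
    (by
      rintro x y ⟨r, rfl⟩
      exact ⟨((1 : A) ⊗ₜ[ZMod 2] (op y)) * r, by rw [mul_smul, sm2]⟩)
  have hvJ : v ∈ J := by
    rw [TwoSidedIdeal.mem_mk']
    exact ⟨1, one_smul _ _⟩
  have hJ : J = ⊤ := by
    rcases hA.simple.eq_bot_or_eq_top J with h | h
    · rw [h, TwoSidedIdeal.mem_bot] at hvJ
      exact absurd hvJ hv
    · exact h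
  have hu : u ∈ J := by rw [hJ]; trivial
  rw [TwoSidedIdeal.mem_mk'] at hu
  exact hu

theorem tr2 (hA : IsSimpleRing A)
    (hc : ∀ z : A, (∀ c, z * c = c * z) → ∃ r : ZMod 2, algebraMap (ZMod 2) A r = z)
    (v1 v2 : A) (h1 : v1 ≠ 0) (h2 : v2 ≠ 0) (h12 : v1 ≠ v2) :
    ∃ r : A ⊗[ZMod 2] Aᵐᵒᵖ, r • v1 = 0 ∧ r • v2 ≠ 0 := by
  by_contra hcon
  push Not at hcon
  obtain ⟨r0, hr0⟩ := tr1 hA v1 1 h1
  set c : A := r0 • v2 with hcdef
  have hL : ∀ r : A ⊗[ZMod 2] Aᵐᵒᵖ, r • v2 = (r • v1) * c := by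
    intro r
    have e := hcon (r - ((r • v1) ⊗ₜ[ZMod 2] (1 : Aᵐᵒᵖ)) * r0) (by
      rw [sub_smul, mul_smul, hr0, sm1, mul_one, sub_self])
    rw [sub_smul, mul_smul, sm1, sub_eq_zero] at e
    exact e
  have hR : ∀ r : A ⊗[ZMod 2] Aᵐᵒᵖ, r • v2 = c * (r • v1) := by
    intro r
    have e := hcon (r - ((1 : A) ⊗ₜ[ZMod 2] (op (r • v1))) * r0) (by
      rw [sub_smul, mul_smul, hr0, sm2, one_mul, sub_self])
    rw [sub_smul, mul_smul, sm2, sub_eq_zero] at e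
    exact e
  obtain ⟨k, hk⟩ := hc c (by
    intro d
    obtain ⟨r, hr⟩ := tr1 hA v1 d h1
    rw [← hr, ← hR, ← hL])
  have hv : v2 = v1 * c := by
    have := hL 1
    rwa [one_smul, one_smul] at this
  have hk2 : k = 0 ∨ k = 1 := by
    clear hk; revert k; decide
  rcases hk2 with rfl | rfl
  · rw [map_zero] at hk
    rw [← hk, mul_zero] at hv
    exact h2 hv
  · rw [map_one] at hk
    rw [← hk, mul_one] at hv
    exact h12 hv.symm

theorem faithful (hA : IsSimpleRing A)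
    (hc : ∀ z : A, (∀ c, z * c = c * z) → ∃ r : ZMod 2, algebraMap (ZMod 2) A r = z)
    (r : A ⊗[ZMod 2] Aᵐᵒᵖ) (hr : ∀ v : A, r • v = 0) : r = 0 := by
  have : Algebra.IsCentral (ZMod 2) A := ⟨by
    intro z hz
    rw [Subalgebra.mem_center_iff] at hz
    obtain ⟨k, hk⟩ := hc z (fun c => (hz c).symm)
    exact Algebra.mem_bot.2 ⟨k, hk⟩⟩
  have hop : IsSimpleRing Aᵐᵒᵖ := inferInstance
  have hs : IsSimpleRing (A ⊗[ZMod 2] Aᵐᵒᵖ) := Pool.Agent.Helper18.Br.isSimple_tensor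
  let J : TwoSidedIdeal (A ⊗[ZMod 2] Aᵐᵒᵖ) := TwoSidedIdeal.mk' {w | ∀ v : A, w • v = 0}
    (fun v => zero_smul (A ⊗[ZMod 2] Aᵐᵒᵖ) v)
    (by intro x y hx hy v; rw [add_smul, hx, hy, add_zero])
    (by intro x hx v; rw [neg_smul, hx, neg_zero])
    (by intro x y hy v; rw [mul_smul, hy, smul_zero])
    (by intro x y hx v; rw [mul_smul, hx])
  have hJ : J = ⊥ := by
    rcases hs.simple.eq_bot_or_eq_top J with h | h
    · exact h
    · exfalso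
      have h1 : (1 : A ⊗[ZMod 2] Aᵐᵒᵖ) ∈ J := by rw [h]; trivial
      rw [TwoSidedIdeal.mem_mk'] at h1
      have h2 := h1 (1 : A)
      rw [one_smul] at h2
      have h3 : Nontrivial A := inferInstance
      exact one_ne_zero h2
  have hrJ : r ∈ J := by
    rw [TwoSidedIdeal.mem_mk']
    exact hr
  rw [hJ, TwoSidedIdeal.mem_bot] at hrJ
  exact hrJ

/-- the element `a ⊗ 1 - 1 ⊗ a` -/
noncomputable def dl (a : A) : A ⊗[ZMod 2] Aᵐᵒᵖ :=
  a ⊗ₜ[ZMod 2] (1 : Aᵐᵒᵖ) - (1 : A) ⊗ₜ[ZMod 2] (op a)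

theorem dl_mul (a b : A) : dl (a * b) =
    (a ⊗ₜ[ZMod 2] (1 : Aᵐᵒᵖ)) * dl b + ((1 : A) ⊗ₜ[ZMod 2] (op b)) * dl a := by
  simp only [dl, mul_sub, Algebra.TensorProduct.tmul_mul_tmul, mul_one, one_mul, op_mul]
  abel

theorem dl_add (a b : A) : dl (a + b) = dl a + dl b := by
  simp only [dl, op_add, TensorProduct.add_tmul, TensorProduct.tmul_add]
  abel

theorem dl_alg (k : ZMod 2) : dl (algebraMap (ZMod 2) A k) = 0 := by
  rw [dl, sub_eq_zero, Algebra.algebraMap_eq_smul_one, op_smul, op_one,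
    TensorProduct.smul_tmul]

theorem ann (hA : FPA A) : ∃ T : Finset (A ⊗[ZMod 2] Aᵐᵒᵖ), (∀ t ∈ T, t • (1 : A) = 0) ∧
    ∀ r : A ⊗[ZMod 2] Aᵐᵒᵖ, r • (1 : A) = 0 →
      r ∈ Submodule.span (A ⊗[ZMod 2] Aᵐᵒᵖ) (T : Set (A ⊗[ZMod 2] Aᵐᵒᵖ)) := by
  classical
  obtain ⟨n, φ, T0, hφ, -⟩ := hA
  refine ⟨Finset.univ.image (fun k : Fin n => dl (φ (FreeAlgebra.ι (ZMod 2) k))), ?_, ?_⟩
  · intro t ht
    obtain ⟨k, -, rfl⟩ := Finset.mem_image.1 ht
    rw [dl, sub_smul, sm1, sm2, mul_one, one_mul, sub_self]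
  · set W := Submodule.span (A ⊗[ZMod 2] Aᵐᵒᵖ)
      ((Finset.univ.image (fun k : Fin n => dl (φ (FreeAlgebra.ι (ZMod 2) k))) :
        Finset (A ⊗[ZMod 2] Aᵐᵒᵖ)) : Set (A ⊗[ZMod 2] Aᵐᵒᵖ)) with hW
    have hd : ∀ p : FreeAlgebra (ZMod 2) (Fin n), dl (φ p) ∈ W := by
      intro p
      induction p using FreeAlgebra.induction with
      | grade0 k =>
        rw [AlgHom.commutes, dl_alg]
        exact W.zero_mem
      | grade1 k =>
        exact Submodule.subset_span (Finset.mem_coe.2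
          (Finset.mem_image.2 ⟨k, Finset.mem_univ _, rfl⟩))
      | mul a b ha hb =>
        rw [map_mul, dl_mul]
        exact W.add_mem (W.smul_mem _ hb) (W.smul_mem _ ha)
      | add a b ha hb =>
        rw [map_add, dl_add]
        exact W.add_mem ha hb
    have hd' : ∀ a : A, dl a ∈ W := fun a => by
      obtain ⟨p, rfl⟩ := hφ a
      exact hd p
    have hk : ∀ r : A ⊗[ZMod 2] Aᵐᵒᵖ, r - (1 : A) ⊗ₜ[ZMod 2] (op (r • (1 : A))) ∈ W := by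
      intro r
      induction r using TensorProduct.induction_on with
      | zero =>
        have hz : (0 : A ⊗[ZMod 2] Aᵐᵒᵖ) • (1 : A) = 0 := zero_smul (A ⊗[ZMod 2] Aᵐᵒᵖ) (1 : A)
        have e : (0 : A ⊗[ZMod 2] Aᵐᵒᵖ) -
            (1 : A) ⊗ₜ[ZMod 2] (op ((0 : A ⊗[ZMod 2] Aᵐᵒᵖ) • (1 : A))) = 0 := by
          rw [hz, op_zero, TensorProduct.tmul_zero, sub_zero]
        rw [e]
        exact W.zero_mem
      | tmul a b =>
        have e : (a ⊗ₜ[ZMod 2] b : A ⊗[ZMod 2] Aᵐᵒᵖ) -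
            (1 : A) ⊗ₜ[ZMod 2] (op ((a ⊗ₜ[ZMod 2] b : A ⊗[ZMod 2] Aᵐᵒᵖ) • (1 : A))) =
            ((1 : A) ⊗ₜ[ZMod 2] b) * dl a := by
          rw [sm, dl, mul_sub, Algebra.TensorProduct.tmul_mul_tmul,
            Algebra.TensorProduct.tmul_mul_tmul, one_mul, one_mul, mul_one, one_mul, op_mul,
            op_unop]
        rw [e]
        exact W.smul_mem _ (hd' a)
      | add r s hr hs =>
        rw [add_smul, op_add, TensorProduct.tmul_add]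
        have e := W.add_mem hr hs
        convert e using 1
        abel
    intro r hr
    have := hk r
    rw [hr, op_zero, TensorProduct.tmul_zero, sub_zero] at this
    exact this

theorem t_BIM : S_BIM := by
  intro A _ _ hA hc hf
  refine ⟨md A, ?_⟩
  exact
    { two := char2 _
      faithful := faithful hA hc
      tr1 := fun v u hv => tr1 hA v u hv
      tr2 := fun v1 v2 h1 h2 h12 => tr2 hA hc v1 v2 h1 h2 h12
      v0ne := one_ne_zero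
      ann := ann hf }

end Pool.Agent.Y151.BH.Bim
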