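import Pool.Agent.Y208.BH.Stm

/-!
# Project BH: task FGS (finite generation of the stabilizer)
-/

set_option autoImplicit false

open scoped commutatorElement

namespace Pool.Agent.Y151.BH.Fgs

open Y208.BH

section st
variable {R I Γ : Type} [Ring R] [Group Γ] {x : I → I → R → Γ}

theorem x_zero (h : St x) (i j : I) (hij : i ≠ j) : x i j 0 = 1 := by
  have e := h.add i j hij 0 0
  rw [add_zero] at e
  exact (mul_eq_left.1 e.symm)

theorem comm_mem {P : Subgroup Γ} {a b : Γ} (ha : a ∈ P) (hb : b ∈ P) : ⁅a, b⁆ ∈ P := by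
  rw [commutatorElement_def]
  exact P.mul_mem (P.mul_mem (P.mul_mem ha hb) (P.inv_mem ha)) (P.inv_mem hb)

theorem x_mul_mem (h : St x) {P : Subgroup Γ} {i j k : I} (h1 : i ≠ j) (h2 : j ≠ k) (h3 : i ≠ k)
    {a b : R} (ha : x i j a ∈ P) (hb : x j k b ∈ P) : x i k (a * b) ∈ P := by
  rw [← h.mul i j k h1 h2 h3]
  exact comm_mem ha hb

end st

section orb
variable {Λ S : Type} [Group Λ] [MulAction Λ S]

theorem exists_orb (h : TypeA Λ S) : ∃ E : Finset ((S ⊕ Fin 4) × (S ⊕ Fin 4)),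
    ∀ p q : S ⊕ Fin 4, ∃ g : Λ, ∃ e ∈ E, mv g e.1 = p ∧ mv g e.2 = q := by
  classical
  obtain ⟨E, hE⟩ := h.orb
  refine ⟨(E.image fun e => (Sum.inl e.1, Sum.inl e.2)) ∪
    ((E ×ˢ (Finset.univ : Finset (Fin 4))).image fun e => (Sum.inl e.1.1, Sum.inr e.2)) ∪
    ((E ×ˢ (Finset.univ : Finset (Fin 4))).image fun e => (Sum.inr e.2, Sum.inl e.1.1)) ∪
    ((Finset.univ : Finset (Fin 4 × Fin 4)).image fun e => (Sum.inr e.1, Sum.inr e.2)), ?_⟩
  intro p q
  rcases p with p | p <;> rcases q with q | q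
  · obtain ⟨g, e, he, h1, h2⟩ := hE p q
    refine ⟨g, (Sum.inl e.1, Sum.inl e.2), ?_, ?_, ?_⟩
    · simp only [Finset.mem_union, Finset.mem_image]
      exact Or.inl (Or.inl (Or.inl ⟨e, he, rfl⟩))
    · simp [mv, h1]
    · simp [mv, h2]
  · obtain ⟨g, e, he, h1, h2⟩ := hE p p
    refine ⟨g, (Sum.inl e.1, Sum.inr q), ?_, ?_, ?_⟩
    · simp only [Finset.mem_union, Finset.mem_image]
      exact Or.inl (Or.inl (Or.inr ⟨(e, q), by simp [he], rfl⟩))
    · simp [mv, h1]
    · simp [mv]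
  · obtain ⟨g, e, he, h1, h2⟩ := hE q q
    refine ⟨g, (Sum.inr p, Sum.inl e.1), ?_, ?_, ?_⟩
    · simp only [Finset.mem_union, Finset.mem_image]
      exact Or.inl (Or.inr ⟨(e, p), by simp [he], rfl⟩)
    · simp [mv]
    · simp [mv, h1]
  · refine ⟨1, (Sum.inr p, Sum.inr q), ?_, ?_, ?_⟩
    · simp only [Finset.mem_union, Finset.mem_image]
      exact Or.inr ⟨(p, q), by simp, rfl⟩
    · simp [mv]
    · simp [mv]

theorem exists_third (h : TypeA Λ S) (a b c : S ⊕ Fin 4) : ∃ m : S ⊕ Fin 4, m ≠ a ∧ m ≠ b ∧ m ≠ c := by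
  classical
  have := h.inf
  obtain ⟨m, hm⟩ := Infinite.exists_notMem_finset ({a, b, c} : Finset (S ⊕ Fin 4))
  simp only [Finset.mem_insert, Finset.mem_singleton, not_or] at hm
  exact ⟨m, hm⟩

end orb

theorem t_FGS : S_FGS := by
  classical
  intro Λ S R V Q _ _ _ _ _ _ _ i x v0 hT hF hE hG c
  obtain ⟨E, hEo⟩ := exists_orb hT
  obtain ⟨n, φ, -, hφ, -⟩ := hF
  obtain ⟨T, hT0, hTs⟩ := hG.ann
  obtain ⟨d, hd⟩ : ∃ d : Fin 4, d ≠ c := exists_ne c
  have hfin : ({z | ∃ e ∈ E, ∃ o : Option (Fin n), e.1 ≠ e.2 ∧ e.2 ≠ .inr c ∧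
      z = x e.1 e.2 (o.elim 1 fun k => φ (FreeAlgebra.ι (ZMod 2) k))} ∪
      {z | ∃ t ∈ T, z = x (.inr d) (.inr c) t} : Set Q).Finite := by
    refine Set.Finite.union ?_ ?_
    · refine Set.Finite.subset (((E ×ˢ (Finset.univ : Finset (Option (Fin n)))).image
        (fun e : ((S ⊕ Fin 4) × (S ⊕ Fin 4)) × Option (Fin n) =>
          x e.1.1 e.1.2 (e.2.elim 1 fun k => φ (FreeAlgebra.ι (ZMod 2) k)))).finite_toSet) ?_
      rintro z ⟨e, he, o, -, -, rfl⟩
      rw [Finset.mem_coe, Finset.mem_image]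
      exact ⟨(e, o), by simp [he], rfl⟩
    · refine Set.Finite.subset ((T.image (fun t => x (.inr d) (.inr c) t)).finite_toSet) ?_
      rintro z ⟨t, ht, rfl⟩
      rw [Finset.mem_coe, Finset.mem_image]
      exact ⟨t, ht, rfl⟩
  set F : Set Q := ({z | ∃ e ∈ E, ∃ o : Option (Fin n), e.1 ≠ e.2 ∧ e.2 ≠ .inr c ∧
      z = x e.1 e.2 (o.elim 1 fun k => φ (FreeAlgebra.ι (ZMod 2) k))} ∪
      {z | ∃ t ∈ T, z = x (.inr d) (.inr c) t} : Set Q) with hFdef
  have hΛ : Group.FG Λ := by
    obtain ⟨k, ψ, hψ, -⟩ := hT.fp.out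
    exact Group.fg_of_surjective hψ
  have hP1 : (i.range ⊔ Subgroup.closure F).FG := by
    refine Subgroup.FG.sup ?_ ?_
    · exact (Group.fg_iff_subgroup_fg _).1 (Group.fg_range i)
    · exact ⟨hfin.toFinset, by rw [Set.Finite.coe_toFinset]⟩
  have key : Subgroup.closure (Set.range i ∪ {z | ∃ (p q : S ⊕ Fin 4) (r : R), p ≠ q ∧
      (q ≠ .inr c ∨ r • v0 = 0) ∧ z = x p q r}) = i.range ⊔ Subgroup.closure F := by
    apply le_antisymm
    · set P := i.range ⊔ Subgroup.closure F with hP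
      have hi : ∀ g, i g ∈ P := fun g => (le_sup_left : i.range ≤ P) ⟨g, rfl⟩
      have hF1 : ∀ z ∈ F, z ∈ P := fun z hz =>
        (le_sup_right : Subgroup.closure F ≤ P) (Subgroup.subset_closure hz)
      have h1 : ∀ p q : S ⊕ Fin 4, p ≠ q → q ≠ .inr c → ∀ o : Option (Fin n),
          x p q (o.elim 1 fun k => φ (FreeAlgebra.ι (ZMod 2) k)) ∈ P := by
        intro p q hpq hq o
        obtain ⟨g, e, he, rfl, rfl⟩ := hEo p q
        have hne : e.1 ≠ e.2 := fun h => hpq (by rw [h])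
        have hne2 : e.2 ≠ .inr c := fun h => hq (by rw [h]; rfl)
        rw [← hE.eqv g e.1 e.2 _ hne]
        exact P.mul_mem (P.mul_mem (hi g) (hF1 _ (Or.inl ⟨e, he, o, hne, hne2, rfl⟩)))
          (P.inv_mem (hi g))
      have h2 : ∀ (r : FreeAlgebra (ZMod 2) (Fin n)) (p q : S ⊕ Fin 4), p ≠ q → q ≠ .inr c →
          x p q (φ r) ∈ P := by
        intro r
        induction r using FreeAlgebra.induction with
        | grade0 k =>
          intro p q hpq hq
          have hk : k = 0 ∨ k = 1 := by revert k; decide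
          rcases hk with rfl | rfl
          · rw [map_zero, map_zero, x_zero hE.st p q hpq]
            exact P.one_mem
          · rw [map_one, map_one]
            exact h1 p q hpq hq none
        | grade1 k =>
          intro p q hpq hq
          exact h1 p q hpq hq (some k)
        | mul a b ha hb =>
          intro p q hpq hq
          obtain ⟨m, hm1, hm2, hm3⟩ := exists_third hT p q (.inr c)
          rw [map_mul]
          exact x_mul_mem hE.st hm1.symm hm2 hpq (ha p m hm1.symm hm3) (hb m q hm2 hq)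
        | add a b ha hb =>
          intro p q hpq hq
          rw [map_add, hE.st.add p q hpq]
          exact P.mul_mem (ha p q hpq hq) (hb p q hpq hq)
      have h3 : ∀ (p q : S ⊕ Fin 4) (r : R), p ≠ q → q ≠ .inr c → x p q r ∈ P := by
        intro p q r hpq hq
        obtain ⟨r', rfl⟩ := hφ r
        exact h2 r' p q hpq hq
      have hdc : (Sum.inr d : S ⊕ Fin 4) ≠ .inr c := fun h => hd (Sum.inr_injective h)
      have h4 : ∀ (p : S ⊕ Fin 4) (t : R), t ∈ T → p ≠ .inr c → x p (.inr c) t ∈ P := by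
        intro p t ht hp
        by_cases hpd : p = .inr d
        · rw [hpd]
          exact hF1 _ (Or.inr ⟨t, ht, rfl⟩)
        · have e := x_mul_mem hE.st (P := P) hpd hdc hp (a := 1) (b := t)
            (h3 p (.inr d) 1 hpd hdc) (hF1 _ (Or.inr ⟨t, ht, rfl⟩))
          rwa [one_mul] at e
      have h5 : ∀ (r : R), r ∈ Submodule.span R (T : Set R) → ∀ p : S ⊕ Fin 4, p ≠ .inr c →
          x p (.inr c) r ∈ P := by
        intro r hr
        induction hr using Submodule.span_induction with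
        | mem t ht => exact fun p hp => h4 p t ht hp
        | zero =>
          intro p hp
          rw [x_zero hE.st p _ hp]
          exact P.one_mem
        | add a b _ _ ha hb =>
          intro p hp
          rw [hE.st.add p _ hp]
          exact P.mul_mem (ha p hp) (hb p hp)
        | smul r a _ ha =>
          intro p hp
          obtain ⟨m, hm1, hm2, -⟩ := exists_third hT p (.inr c) p
          rw [smul_eq_mul]
          exact x_mul_mem hE.st hm1.symm hm2 hp (h3 p m r hm1.symm hm2) (ha m hm2)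
      rw [Subgroup.closure_le]
      rintro z (⟨g, rfl⟩ | ⟨p, q, r, hpq, hor, rfl⟩)
      · exact hi g
      · by_cases hq : q = .inr c
        · subst hq
          rcases hor with h | h
          · exact absurd rfl h
          · exact h5 r (hTs r h) p hpq
        · exact h3 p q r hpq hq
    · rw [sup_le_iff]
      constructor
      · rintro _ ⟨g, rfl⟩
        exact Subgroup.subset_closure (Or.inl ⟨g, rfl⟩)
      · rw [Subgroup.closure_le]
        rintro z (⟨e, he, o, h1, h2, rfl⟩ | ⟨t, ht, rfl⟩)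
        · exact Subgroup.subset_closure (Or.inr ⟨e.1, e.2, _, h1, Or.inl h2, rfl⟩)
        · exact Subgroup.subset_closure (Or.inr ⟨.inr d, .inr c, t,
            fun h => hd (Sum.inr_injective h), Or.inr (hT0 t ht), rfl⟩)
  rw [key]
  exact hP1

end Pool.Agent.Y151.BH.Fgs
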